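import Mathlib
import Pool.Agent.R25.Qr.Rand

/-!
# MP_78fef3_co: graphs with many edges and no quasiregular subgraph

For every real number `C`, every integer `k ≥ 2` and every real number `F` there is a graph with
`n ≥ 1` vertices and at least `F n` edges in which no subgraph has all its degrees strictly between
`k` and `C k`. This disproves the statement of Q1.
-/

set_option autoImplicit false

namespace Pool.Agent.Results.MP_78fef3_co.NoQuasiregular

open Finset Pool.Agent.R25.Qr

/-- A subgraph `H` is `(k, C)`-quasiregular: it has a vertex and all its degrees (counted in `H`)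
are strictly between `k` and `C k`. -/
def IsQuasiregular {V : Type} {G : SimpleGraph V} (k : ℕ) (C : ℝ) (H : G.Subgraph) : Prop :=
  H.verts.Nonempty ∧
    ∀ v ∈ H.verts, (k : ℝ) < ((H.neighborSet v).ncard : ℝ) ∧
      ((H.neighborSet v).ncard : ℝ) < C * k

/-- The statement of Q1 (to be disproved). -/
def SauerStatement : Prop :=
  ∃ C : ℝ, 1 < C ∧ ∀ k : ℕ, 1 ≤ k → ∃ F : ℝ, ∀ (V : Type) [Fintype V] [Nonempty V]
    (G : SimpleGraph V), F * Fintype.card V ≤ (G.edgeSet.ncard : ℝ) →
      ∃ H : G.Subgraph, IsQuasiregular k C H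

/-- the bipartite graph of the maps `f i` -/
def Gr {t n : ℕ} {m : Fin t → ℕ} (f : ∀ i : Fin t, Fin n → Fin (m i)) :
    SimpleGraph (Fin n ⊕ (Σ i : Fin t, Fin (m i))) where
  Adj x y := match x, y with
    | Sum.inl a, Sum.inr q => f q.1 a = q.2
    | Sum.inr q, Sum.inl a => f q.1 a = q.2
    | _, _ => False
  symm := ⟨by
    rintro (a | q) (b | r) h
    · exact h
    · exact h
    · exact h
    · exact h⟩
  loopless := ⟨by
    rintro (a | q) h
    · exact h
    · exact h⟩

section

variable {t n : ℕ} {m : Fin t → ℕ} (f : ∀ i : Fin t, Fin n → Fin (m i))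

lemma adj_lr {a : Fin n} {q : Σ i : Fin t, Fin (m i)} :
    (Gr f).Adj (Sum.inl a) (Sum.inr q) ↔ f q.1 a = q.2 := Iff.rfl

lemma adj_rl {a : Fin n} {q : Σ i : Fin t, Fin (m i)} :
    (Gr f).Adj (Sum.inr q) (Sum.inl a) ↔ f q.1 a = q.2 := Iff.rfl

lemma edges_ge : t * n ≤ (Gr f).edgeSet.ncard := by
  classical
  set φ : Fin t × Fin n → Sym2 (Fin n ⊕ (Σ i : Fin t, Fin (m i))) :=
    fun p => s(Sum.inl p.2, Sum.inr ⟨p.1, f p.1 p.2⟩) with hφ
  have hinj : Function.Injective φ := by
    rintro ⟨i, a⟩ ⟨j, b⟩ h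
    rw [hφ] at h
    simp only at h
    rw [Sym2.eq_iff] at h
    rcases h with ⟨h1, h2⟩ | ⟨h1, -⟩
    · have h3 := Sum.inl_injective h1
      have h4 := congrArg Sigma.fst (Sum.inr_injective h2)
      exact Prod.ext h4 h3
    · exact absurd h1 Sum.inl_ne_inr
  have hsub : Set.range φ ⊆ (Gr f).edgeSet := by
    rintro _ ⟨p, rfl⟩
    show (Gr f).Adj (Sum.inl p.2) (Sum.inr ⟨p.1, f p.1 p.2⟩)
    rw [adj_lr]
  have h1 := Set.ncard_le_ncard hsub (Set.toFinite _)
  have h2 : (Set.range φ).ncard = t * n := by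
    rw [← Set.image_univ, Set.ncard_image_of_injective _ hinj, Set.ncard_univ, Nat.card_eq_fintype_card,
      Fintype.card_prod, Fintype.card_fin, Fintype.card_fin]
  omega

end

lemma defe_mono {A B : Type} [DecidableEq A] [DecidableEq B] (g : A → B) {S T : Finset A}
    (h : S ⊆ T) : defe g S ≤ defe g T := by
  unfold defe
  have h1 : (T.image g).card ≤ (S.image g).card + (T \ S).card := by
    have h2 : T.image g ⊆ S.image g ∪ (T \ S).image g := by
      rw [← Finset.image_union, Finset.union_sdiff_of_subset h]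
    refine (Finset.card_le_card h2).trans ((Finset.card_union_le _ _).trans ?_)
    exact Nat.add_le_add_left Finset.card_image_le _
  have h3 : (T \ S).card = T.card - S.card := Finset.card_sdiff_of_subset h
  have h4 := Finset.card_le_card h
  have h5 := Finset.card_image_le (s := S) (f := g)
  omega

section

variable {t n : ℕ} {d m : Fin t → ℕ} {f : ∀ i : Fin t, Fin n → Fin (m i)}

open Classical in
lemma no_sub (L : ℕ) (hdm : ∀ i, d i * m i = n) (hn : 0 < n) (hL : 1 ≤ L)
    (hmid : ∀ i j : Fin t, i ≠ j → L * d i ^ 8 ≤ d j ∨ L * d j ^ 8 ≤ d i)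
    (hf : ∀ S : Finset (Fin n), S.Nonempty →
      4 * ∑ i ∈ low n d S.card, defe (f i) S < 5 * S.card)
    (k : ℕ) (hk : 2 ≤ k) (C : ℝ) (hLC : 8 * t * (C * k) ≤ L) (H : (Gr f).Subgraph) :
    ¬ IsQuasiregular k C H := by
  rintro ⟨⟨v, hv⟩, hdeg⟩
  set S : Finset (Fin n) := Finset.univ.filter fun a => Sum.inl a ∈ H.verts with hS
  set A : Fin t → Finset (Fin n) := fun i =>
    Finset.univ.filter fun a => H.Adj (Sum.inl a) (Sum.inr ⟨i, f i a⟩) with hA
  have hAS : ∀ i, A i ⊆ S := by
    intro i a ha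
    rw [hA, Finset.mem_filter] at ha
    rw [hS, Finset.mem_filter]
    exact ⟨Finset.mem_univ _, H.edge_vert ha.2⟩
  have hkr : (2 : ℝ) ≤ k := by exact_mod_cast hk
  -- degrees of the vertices of the big side
  have hdegA : ∀ a ∈ S, 3 ≤ (Finset.univ.filter fun i => a ∈ A i).card := by
    intro a ha
    have h1 := (hdeg _ (Finset.mem_filter.1 ha).2).1
    have h2 : H.neighborSet (Sum.inl a) ⊆
        (fun i : Fin t => (Sum.inr ⟨i, f i a⟩ : Fin n ⊕ (Σ i : Fin t, Fin (m i)))) ''
          ((Finset.univ.filter fun i => a ∈ A i : Finset (Fin t)) : Set (Fin t)) := by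
      intro w hw
      have hw' : H.Adj (Sum.inl a) w := hw
      have hG := H.adj_sub hw'
      rcases w with b | ⟨i, b⟩
      · exact hG.elim
      · have hG' : f i a = b := hG
        subst hG'
        refine ⟨i, ?_, rfl⟩
        rw [Finset.mem_coe, Finset.mem_filter, hA, Finset.mem_filter]
        exact ⟨Finset.mem_univ _, Finset.mem_univ _, hw'⟩
    have h3 := (Set.ncard_le_ncard h2 (Set.toFinite _)).trans (Set.ncard_image_le (Set.toFinite _))
    rw [Set.ncard_coe_finset] at h3
    have h4 : (2 : ℝ) < ((Finset.univ.filter fun i => a ∈ A i).card : ℝ) := by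
      have : ((H.neighborSet (Sum.inl a)).ncard : ℝ) ≤
        ((Finset.univ.filter fun i => a ∈ A i).card : ℝ) := by exact_mod_cast h3
      linarith
    exact_mod_cast h4
  -- degrees of the vertices of the small side
  have hfib : ∀ i, ∀ b ∈ (A i).image (f i),
      3 ≤ ((A i).filter fun a => f i a = b).card ∧
      (((A i).filter fun a => f i a = b).card : ℝ) ≤ C * k := by
    intro i b hb
    obtain ⟨a0, ha0, rfl⟩ := Finset.mem_image.1 hb
    have hadj0 : H.Adj (Sum.inl a0) (Sum.inr ⟨i, f i a0⟩) := (Finset.mem_filter.1 ha0).2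
    have hvert := H.edge_vert hadj0.symm
    have h1 := hdeg _ hvert
    have h2 : H.neighborSet (Sum.inr ⟨i, f i a0⟩) =
        (Sum.inl : Fin n → Fin n ⊕ (Σ i : Fin t, Fin (m i))) ''
          (((A i).filter fun a => f i a = f i a0 : Finset (Fin n)) : Set (Fin n)) := by
      ext w
      constructor
      · intro hw
        have hw' : H.Adj (Sum.inr ⟨i, f i a0⟩) w := hw
        have hG := H.adj_sub hw'
        rcases w with b | q
        · rw [adj_rl] at hG
          have hG' : f i b = f i a0 := hG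
          refine ⟨b, ?_, rfl⟩
          rw [Finset.mem_coe, Finset.mem_filter, hA, Finset.mem_filter]
          refine ⟨⟨Finset.mem_univ _, ?_⟩, hG'⟩
          rw [hG']
          exact hw'.symm
        · exact hG.elim
      · rintro ⟨b, hb, rfl⟩
        rw [Finset.mem_coe, Finset.mem_filter, hA, Finset.mem_filter] at hb
        have hb1 := hb.1.2
        rw [hb.2] at hb1
        exact hb1.symm
    rw [h2, Set.ncard_image_of_injective _ Sum.inl_injective, Set.ncard_coe_finset] at h1
    refine ⟨?_, h1.2.le⟩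
    have : (2 : ℝ) < (((A i).filter fun a => f i a = f i a0).card : ℝ) := by linarith [h1.1]
    exact_mod_cast this
  have hA1 : ∀ i, 3 * ((A i).image (f i)).card ≤ (A i).card := by
    intro i
    rw [Finset.card_eq_sum_card_image (f i) (A i), mul_comm, ← smul_eq_mul]
    exact Finset.card_nsmul_le_sum _ _ _ (fun b hb => (hfib i b hb).1)
  have hA2 : ∀ i, ((A i).card : ℝ) ≤ m i * (C * k) := by
    intro i
    have hm0 : 0 < m i := by
      rcases Nat.eq_zero_or_pos (m i) with h | h
      · have := hdm i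
        rw [h, mul_zero] at this
        omega
      · exact h
    by_cases hne : (A i).Nonempty
    · obtain ⟨a0, ha0⟩ := hne
      have hpos : 0 ≤ C * k :=
        (Nat.cast_nonneg _).trans (hfib i (f i a0) (Finset.mem_image_of_mem _ ha0)).2
      have h1 : ((A i).card : ℝ) = ∑ b ∈ (A i).image (f i),
          (((A i).filter fun a => f i a = b).card : ℝ) := by
        exact_mod_cast Finset.card_eq_sum_card_image (f i) (A i)
      rw [h1]
      calc _ ≤ (((A i).image (f i)).card : ℕ) • (C * k) :=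
            Finset.sum_le_card_nsmul _ _ _ (fun b hb => (hfib i b hb).2)
        _ = (((A i).image (f i)).card : ℝ) * (C * k) := by rw [nsmul_eq_mul]
        _ ≤ _ := by
            apply mul_le_mul_of_nonneg_right _ hpos
            have h2 : ((A i).image (f i)).card ≤ Fintype.card (Fin (m i)) := Finset.card_le_univ _
            rw [Fintype.card_fin] at h2
            exact_mod_cast h2
    · rw [Finset.not_nonempty_iff_eq_empty.1 hne, Finset.card_empty, Nat.cast_zero]
      -- `C * k` is positive because `H` has a vertex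
      have h1 := hdeg v hv
      have h2 : (0 : ℝ) ≤ C * k := by linarith [h1.1, h1.2]
      positivity
  -- `S` is nonempty
  have hSne : S.Nonempty := by
    rcases v with a | q
    · exact ⟨a, by rw [hS, Finset.mem_filter]; exact ⟨Finset.mem_univ _, hv⟩⟩
    · have h1 := (hdeg _ hv).1
      have h2 : (H.neighborSet (Sum.inr q)).Nonempty := by
        rw [Set.nonempty_iff_ne_empty]
        intro h3
        rw [h3, Set.ncard_empty] at h1
        push_cast at h1
        linarith
      obtain ⟨w, hw⟩ := h2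
      have hw' : H.Adj (Sum.inr q) w := hw
      have hG := H.adj_sub hw'
      rcases w with b | r
      · exact ⟨b, by rw [hS, Finset.mem_filter]; exact ⟨Finset.mem_univ _, H.edge_vert hw'.symm⟩⟩
      · exact hG.elim
  -- total count
  have htot : 3 * S.card ≤ ∑ i : Fin t, (A i).card := by
    have h1 : ∑ i : Fin t, (A i).card = ∑ a : Fin n, (Finset.univ.filter fun i => a ∈ A i).card := by
      simp only [Finset.card_eq_sum_ones, Finset.sum_filter]
      rw [← Finset.sum_comm]
      apply Finset.sum_congr rfl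
      intro i _
      rw [← Finset.sum_filter, Finset.filter_mem_eq_inter, Finset.univ_inter]
    rw [h1]
    calc 3 * S.card = ∑ _a ∈ S, 3 := by rw [Finset.sum_const, smul_eq_mul, mul_comm]
      _ ≤ ∑ a ∈ S, (Finset.univ.filter fun i => a ∈ A i).card :=
          Finset.sum_le_sum (fun a ha => hdegA a ha)
      _ ≤ _ := Finset.sum_le_sum_of_subset (Finset.subset_univ _)
  -- layers which are not low
  set x := S.card with hx
  have hx0 : 0 < x := hSne.card_pos
  set lo := low n d x with hlo
  set hi : Finset (Fin t) := Finset.univ.filter fun i => i ∉ lo ∧ L * n ≤ d i * x with hhi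
  set mi : Finset (Fin t) := Finset.univ.filter fun i => i ∉ lo ∧ ¬ L * n ≤ d i * x with hmi
  have hmic : mi.card ≤ 1 := by
    rw [Finset.card_le_one]
    intro i h1 j h2
    by_contra hne
    rw [hmi, Finset.mem_filter] at h1 h2
    have hnl : ∀ i, i ∉ lo → n < d i ^ 8 * x := by
      intro i hi
      by_contra hcon
      apply hi
      rw [hlo]
      unfold low
      rw [Finset.mem_filter]
      exact ⟨Finset.mem_univ _, by omega⟩
    have key : ∀ i j : Fin t, L * d i ^ 8 ≤ d j → n < d i ^ 8 * x → L * n ≤ d j * x := by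
      intro i j h3 h4
      calc L * n ≤ L * (d i ^ 8 * x) := Nat.mul_le_mul_left _ h4.le
        _ = L * d i ^ 8 * x := by ring
        _ ≤ d j * x := Nat.mul_le_mul_right _ h3
    rcases hmid i j hne with h3 | h3
    · exact h2.2.2 (key i j h3 (hnl i h1.2.1))
    · exact h1.2.2 (key j i h3 (hnl j h2.2.1))
  have hmis : ∑ i ∈ mi, (A i).card ≤ x := by
    calc ∑ i ∈ mi, (A i).card ≤ mi.card • x :=
          Finset.sum_le_card_nsmul _ _ _ (fun i _ => Finset.card_le_card (hAS i))
      _ ≤ 1 • x := Nat.mul_le_mul_right _ hmic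
      _ = x := by simp
  have hhis : 8 * ∑ i ∈ hi, (A i).card ≤ x := by
    have h1 : ∀ i ∈ hi, (8 * t) * (A i).card ≤ x := by
      intro i hi'
      rw [hhi, Finset.mem_filter] at hi'
      have h2 := hi'.2.2
      have hd0 : 0 < d i := by
        rcases Nat.eq_zero_or_pos (d i) with h | h
        · have := hdm i
          rw [h, zero_mul] at this
          omega
        · exact h
      have h3 : L * m i ≤ x := by
        rw [← hdm i] at h2
        have h4 : d i * (L * m i) ≤ d i * x := by
          calc d i * (L * m i) = L * (d i * m i) := by ring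
            _ ≤ d i * x := h2
        exact Nat.le_of_mul_le_mul_left h4 hd0
      have h5 : ((8 * t : ℕ) : ℝ) * ((A i).card : ℝ) ≤ (x : ℝ) := by
        calc ((8 * t : ℕ) : ℝ) * ((A i).card : ℝ) ≤ ((8 * t : ℕ) : ℝ) * (m i * (C * k)) :=
              mul_le_mul_of_nonneg_left (hA2 i) (by positivity)
          _ = (8 * t * (C * k)) * m i := by push_cast; ring
          _ ≤ L * m i := mul_le_mul_of_nonneg_right hLC (by positivity)
          _ ≤ x := by exact_mod_cast h3
      exact_mod_cast h5
    have h2 : ∑ i ∈ hi, (8 * t) * (A i).card ≤ hi.card • x :=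
      Finset.sum_le_card_nsmul _ _ _ h1
    have h3 : hi.card ≤ t := by
      calc hi.card ≤ Fintype.card (Fin t) := Finset.card_le_univ _
        _ = t := Fintype.card_fin _
    rw [← Finset.mul_sum, smul_eq_mul] at h2
    rcases Nat.eq_zero_or_pos t with ht | ht
    · have : hi = ∅ := by
        apply Finset.card_eq_zero.1
        omega
      rw [this]
      simp
    · have h4 : t * (8 * ∑ i ∈ hi, (A i).card) ≤ t * x := by
        calc t * (8 * ∑ i ∈ hi, (A i).card) = 8 * t * ∑ i ∈ hi, (A i).card := by ring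
          _ ≤ hi.card * x := h2
          _ ≤ t * x := Nat.mul_le_mul_right _ h3
      exact Nat.le_of_mul_le_mul_left h4 ht
  have hsplit : ∑ i : Fin t, (A i).card =
      ∑ i ∈ lo, (A i).card + (∑ i ∈ hi, (A i).card + ∑ i ∈ mi, (A i).card) := by
    have h1 : ∑ i : Fin t, (A i).card = ∑ i ∈ Finset.univ.filter (fun i => i ∈ lo), (A i).card +
        ∑ i ∈ Finset.univ.filter (fun i => ¬ i ∈ lo), (A i).card :=
      (Finset.sum_filter_add_sum_filter_not _ _ _).symm
    have h2 : ∑ i ∈ Finset.univ.filter (fun i => ¬ i ∈ lo), (A i).card =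
        ∑ i ∈ (Finset.univ.filter (fun i => ¬ i ∈ lo)).filter (fun i => L * n ≤ d i * x),
            (A i).card +
          ∑ i ∈ (Finset.univ.filter (fun i => ¬ i ∈ lo)).filter (fun i => ¬ L * n ≤ d i * x),
            (A i).card :=
      (Finset.sum_filter_add_sum_filter_not _ _ _).symm
    rw [h1, h2, Finset.filter_filter, Finset.filter_filter, Finset.filter_mem_eq_inter,
      Finset.univ_inter]
  have hdef : ∑ i ∈ lo, 2 * (A i).card ≤ ∑ i ∈ lo, 3 * defe (f i) S := by
    apply Finset.sum_le_sum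
    intro i _
    have h1 := defe_mono (f i) (hAS i)
    have h2 := card_image_add_defe (f i) (A i)
    have h3 := hA1 i
    omega
  rw [← Finset.mul_sum, ← Finset.mul_sum] at hdef
  have hfin : 4 * ∑ i ∈ lo, defe (f i) S < 5 * x := hf S hSne
  omega

end

/-- the sequence of degrees -/
def dd (L d0 : ℕ) : ℕ → ℕ
  | 0 => d0
  | i + 1 => L * dd L d0 i ^ 8

lemma dd_mono {L d0 : ℕ} (hL : 1 ≤ L) (hd : 1 ≤ d0) (i j : ℕ) (h : i ≤ j) :
    dd L d0 i ≤ dd L d0 j ∧ 1 ≤ dd L d0 i := by
  have h1 : ∀ i, 1 ≤ dd L d0 i := by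
    intro i
    induction i with
    | zero => exact hd
    | succ i ih =>
      show 1 ≤ L * dd L d0 i ^ 8
      exact Nat.mul_pos hL (pow_pos ih 8)
  refine ⟨?_, h1 i⟩
  induction j, h using Nat.le_induction with
  | base => exact le_rfl
  | succ j _ ih =>
    refine ih.trans ?_
    show dd L d0 j ≤ L * dd L d0 j ^ 8
    have h2 : dd L d0 j ≤ dd L d0 j ^ 8 := Nat.le_self_pow (by norm_num) _
    exact h2.trans (Nat.le_mul_of_pos_left _ hL)

theorem result (C : ℝ) (k : ℕ) (hk : 2 ≤ k) (F : ℝ) :
    ∃ (V : Type) (_ : Fintype V) (G : SimpleGraph V), Nonempty V ∧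
      F * Fintype.card V ≤ (G.edgeSet.ncard : ℝ) ∧ ∀ H : G.Subgraph, ¬ IsQuasiregular k C H := by
  obtain ⟨t, ht⟩ := exists_nat_ge (2 * |F| + 1)
  have ht0 : 0 < t := by
    have : (0 : ℝ) < t := by linarith [abs_nonneg F]
    exact_mod_cast this
  obtain ⟨L0, hL0⟩ := exists_nat_ge (8 * t * (C * k))
  set L := L0 + 1 with hL
  have hL1 : 1 ≤ L := by omega
  have hLC : 8 * t * (C * k) ≤ (L : ℝ) := by
    rw [hL]
    push_cast
    linarith
  set d0 := (12 * 2 ^ t) ^ 2 with hd0
  have hd01 : 1 ≤ d0 := Nat.one_le_pow _ _ (by positivity)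
  set d : Fin t → ℕ := fun i => dd L d0 i with hd
  set n : ℕ := ∏ i : Fin t, d i with hn
  have hdpos : ∀ i, 1 ≤ d i := fun i => (dd_mono hL1 hd01 i i le_rfl).2
  have hn0 : 0 < n := Finset.prod_pos (fun i _ => hdpos i)
  set m : Fin t → ℕ := fun i => n / d i with hm
  have hdm : ∀ i, d i * m i = n := fun i =>
    Nat.mul_div_cancel' (Finset.dvd_prod_of_mem d (Finset.mem_univ i))
  have hdlow : ∀ i, (12 * 2 ^ t) ^ 2 ≤ d i := fun i =>
    (dd_mono hL1 hd01 0 i (Nat.zero_le _)).1
  obtain ⟨f, hf⟩ := exists_layers d m hn0 hdm hdlow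
  have hmid : ∀ i j : Fin t, i ≠ j → L * d i ^ 8 ≤ d j ∨ L * d j ^ 8 ≤ d i := by
    have key : ∀ i j : Fin t, i.val < j.val → L * d i ^ 8 ≤ d j := by
      intro i j hij
      exact (dd_mono hL1 hd01 (i.val + 1) j.val hij).1
    intro i j hne
    rcases Nat.lt_or_gt_of_ne (fun h => hne (Fin.ext h)) with h | h
    · exact Or.inl (key i j h)
    · exact Or.inr (key j i h)
  refine ⟨Fin n ⊕ (Σ i : Fin t, Fin (m i)), inferInstance, Gr f, ⟨Sum.inl ⟨0, hn0⟩⟩, ?_, ?_⟩
  · have hcard : Fintype.card (Fin n ⊕ (Σ i : Fin t, Fin (m i))) ≤ 2 * n := by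
      rw [Fintype.card_sum, Fintype.card_sigma, Fintype.card_fin]
      simp only [Fintype.card_fin]
      have h1 : ∑ i : Fin t, m i ≤ n := by
        have h2 : ∀ i ∈ (Finset.univ : Finset (Fin t)), t * m i ≤ n := by
          intro i _
          have h3 : t ≤ d i := by
            calc t ≤ 2 ^ t := Nat.lt_two_pow_self.le
              _ ≤ 12 * 2 ^ t := Nat.le_mul_of_pos_left _ (by norm_num)
              _ ≤ (12 * 2 ^ t) ^ 2 := Nat.le_self_pow (by norm_num) _
              _ ≤ d i := hdlow i
          calc t * m i ≤ d i * m i := Nat.mul_le_mul_right _ h3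
            _ = n := hdm i
        have h4 := Finset.sum_le_card_nsmul _ _ _ h2
        rw [← Finset.mul_sum, Finset.card_univ, Fintype.card_fin, smul_eq_mul] at h4
        exact Nat.le_of_mul_le_mul_left h4 ht0
      omega
    have h1 : (t : ℝ) * n ≤ ((Gr f).edgeSet.ncard : ℝ) := by exact_mod_cast edges_ge f
    have h2 : ((Fintype.card (Fin n ⊕ (Σ i : Fin t, Fin (m i))) : ℕ) : ℝ) ≤ 2 * n := by
      exact_mod_cast hcard
    calc F * (Fintype.card (Fin n ⊕ (Σ i : Fin t, Fin (m i))) : ℝ)
        ≤ |F| * (Fintype.card (Fin n ⊕ (Σ i : Fin t, Fin (m i))) : ℝ) :=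
          mul_le_mul_of_nonneg_right (le_abs_self F) (Nat.cast_nonneg _)
      _ ≤ |F| * (2 * n) := mul_le_mul_of_nonneg_left h2 (abs_nonneg F)
      _ = (2 * |F|) * n := by ring
      _ ≤ t * n := mul_le_mul_of_nonneg_right (by linarith) (Nat.cast_nonneg _)
      _ ≤ _ := h1
  · intro H
    exact no_sub L hdm hn0 hL1 hmid hf k hk C hLC H

/-- The statement of Q1 is false. -/
theorem not_sauerStatement : ¬ SauerStatement := by
  rintro ⟨C, -, h⟩
  obtain ⟨F, hF⟩ := h 2 (by norm_num)
  obtain ⟨V, hV, G, hne, hedges, hno⟩ := result C 2 le_rfl F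
  obtain ⟨H, hH⟩ := hF V G hedges
  exact hno H hH

end Pool.Agent.Results.MP_78fef3_co.NoQuasiregular
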